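import Pool.Agent.W186.AI.Spec
import Pool.Agent.H24R2.JP.Had
import Pool.Agent.H24R2.JP.B1
import Pool.Agent.H24R2.JP.Grow
import Pool.Agent.H24R2.JP.Zeros
import Pool.Agent.H24R2.JP.Mom
import Pool.Agent.H24R2.JP.Gam
import Pool.Agent.H24R2.JP.Good
import Pool.Agent.H24R2.JP.Der

/-!
# MON: the logarithmic derivative of xi has positive real part on `Re s > 1`
-/

set_option autoImplicit false

namespace Pool.Agent.W143.AI.MON

open Complex Filter Topology Metric Set Polynomial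
open Pool.Agent.W186.AI
open Pool.Agent.H24R2.JP (XX FF Par App Good had b1 grow zeros mom gamS good der)

theorem goodF : Good FF :=
  good had b1 (grow b1) (zeros b1) (gamS mom)

theorem root_term (z a : ℂ) (hz : 1 / 2 < z.re) (ha : a ∈ Par) :
    0 ≤ (2 * z * (1 / (z ^ 2 - a))).re ∧ z ^ 2 - a ≠ 0 := by
  obtain ⟨w, hw⟩ := IsAlgClosed.exists_pow_nat_eq a (show 0 < 2 by norm_num)
  have hwre : |w.re| ≤ 1 / 2 := by
    have h1 : a.re + a.im ^ 2 ≤ 1 / 4 := ha
    have e1 : a.re = w.re ^ 2 - w.im ^ 2 := by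
      rw [← hw, pow_two, Complex.mul_re]
      ring
    have e2 : a.im = 2 * w.re * w.im := by
      rw [← hw, pow_two, Complex.mul_im]
      ring
    rw [e1, e2] at h1
    have h2 : w.re ^ 2 ≤ (1 / 2) ^ 2 := by
      by_contra hc
      push Not at hc
      nlinarith [sq_nonneg w.im, sq_nonneg w.re]
    exact abs_le_of_sq_le_sq h2 (by norm_num)
  have hw1 := abs_le.1 hwre
  have hm : z - w ≠ 0 := by
    intro h0
    have : (z - w).re = 0 := by rw [h0]; simp
    rw [Complex.sub_re] at this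
    linarith
  have hp : z + w ≠ 0 := by
    intro h0
    have : (z + w).re = 0 := by rw [h0]; simp
    rw [Complex.add_re] at this
    linarith
  have hf : z ^ 2 - a = (z - w) * (z + w) := by
    rw [← hw]
    ring
  refine ⟨?_, by rw [hf]; exact mul_ne_zero hm hp⟩
  have e : 2 * z * (1 / (z ^ 2 - a)) = (z - w)⁻¹ + (z + w)⁻¹ := by
    rw [hf]
    field_simp
    ring
  rw [e, Complex.add_re, Complex.inv_re, Complex.inv_re]
  apply add_nonneg
  · apply div_nonneg _ (Complex.normSq_nonneg _)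
    rw [Complex.sub_re]
    linarith
  · apply div_nonneg _ (Complex.normSq_nonneg _)
    rw [Complex.add_re]
    linarith

theorem re_sum_nonneg (m : Multiset ℂ) (h : ∀ x ∈ m, 0 ≤ x.re) : 0 ≤ (m.sum).re := by
  induction m using Multiset.induction_on with
  | empty => simp
  | cons a m ih =>
    rw [Multiset.sum_cons, Complex.add_re]
    exact add_nonneg (h a (Multiset.mem_cons_self _ _))
      (ih fun x hx => h x (Multiset.mem_cons_of_mem hx))

theorem poly_nonneg (P : ℝ[X]) (hP : ∀ x : ℂ, aeval x P = 0 → x ∈ Par) (z : ℂ)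
    (hz : 1 / 2 < z.re) :
    0 ≤ (2 * z * (aeval (z ^ 2) (derivative P) / aeval (z ^ 2) P)).re := by
  by_cases hP0 : aeval (z ^ 2) P = 0
  · rw [hP0]
    simp
  set p : ℂ[X] := P.map (algebraMap ℝ ℂ) with hp
  have e1 : aeval (z ^ 2) P = p.eval (z ^ 2) := by
    rw [hp, Polynomial.eval_map_algebraMap]
  have e2 : aeval (z ^ 2) (derivative P) = p.derivative.eval (z ^ 2) := by
    rw [hp, Polynomial.derivative_map, Polynomial.eval_map_algebraMap]
  rw [e1] at hP0
  have hp0 : p ≠ 0 := by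
    intro h
    rw [h] at hP0
    simp at hP0
  rw [e1, e2, (IsAlgClosed.splits p).eval_derivative_div_eval_of_ne_zero hP0,
    ← Multiset.sum_map_mul_left]
  apply re_sum_nonneg
  intro x hx
  rw [Multiset.mem_map] at hx
  obtain ⟨a, ha, rfl⟩ := hx
  have ha' : a ∈ Par := by
    apply hP
    rw [← Polynomial.eval_map_algebraMap]
    exact (Polynomial.mem_roots hp0).1 ha
  exact (root_term z a hz ha').1

theorem FF_ne (z : ℂ) (hz : 1 / 2 < z.re) : FF (z ^ 2) ≠ 0 := by
  intro h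
  have h1 : z ^ 2 ∈ Par := zeros b1 _ h
  exact (root_term z _ hz h1).2 (sub_self _)

theorem FF_nonneg (z : ℂ) (hz : 1 / 2 < z.re) :
    0 ≤ (2 * z * (deriv FF (z ^ 2) / FF (z ^ 2))).re := by
  obtain ⟨-, ⟨P, hP⟩, -⟩ := goodF
  have h0 := (tendstoLocallyUniformlyOn_univ.2 ((der FF P hP 0).1)).tendsto_at
    (Set.mem_univ (z ^ 2))
  have h1 := (tendstoLocallyUniformlyOn_univ.2 ((der FF P hP 1).1)).tendsto_at
    (Set.mem_univ (z ^ 2))
  rw [iteratedDeriv_zero] at h0
  rw [iteratedDeriv_one] at h1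
  have h2 : Tendsto (fun N => (2 * z * (aeval (z ^ 2) (derivative^[1] (P N)) /
      aeval (z ^ 2) (derivative^[0] (P N)))).re) atTop
      (𝓝 (2 * z * (deriv FF (z ^ 2) / FF (z ^ 2))).re) :=
    (Complex.continuous_re.tendsto _).comp ((h1.div h0 (FF_ne z hz)).const_mul (2 * z))
  refine ge_of_tendsto' h2 fun N => ?_
  exact poly_nonneg (P N) (hP.1 N) z hz

theorem exp_ell (hg : S_GAM) (hz : S_ZET) (s : ℂ) (hs : 1 < s.re) :
    cexp (ell s) = s * (s - 1) * completedRiemannZeta s := by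
  unfold ell
  have hs0 : s ≠ 0 := by
    intro h
    rw [h] at hs
    simp at hs
    linarith
  have hG : Gammaℝ s ≠ 0 := Gammaℝ_ne_zero_of_re_pos (by linarith)
  rw [Complex.exp_add, hg.2.1 s hs, hz.2.1 s hs, riemannZeta_def_of_ne_zero hs0]
  field_simp

theorem FF_eq (hg : S_GAM) (hz : S_ZET) (s : ℂ) (hs : 1 < s.re) :
    FF ((s - 1 / 2) ^ 2) = 4 * cexp (ell s) := by
  rw [exp_ell hg hz s hs, b1.2.1]
  have h1 : (1 / 2 + (s - 1 / 2) : ℂ) = s := by ring
  have hs0 : s ≠ 0 := by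
    intro h
    rw [h] at hs
    simp at hs
    linarith
  have hs1 : 1 - s ≠ 0 := by
    intro h
    have : s = 1 := by linear_combination -h
    rw [this] at hs
    simp at hs
  rw [Pool.Agent.H24R2.JP.Zer.XX_eq (s - 1 / 2) (by rw [h1]; exact hs0) (by rw [h1]; exact hs1), h1]
  ring

theorem isOpenU : IsOpen {s : ℂ | 1 < s.re} := isOpen_lt continuous_const Complex.continuous_re

theorem ell_diff (hg : S_GAM) (hz : S_ZET) : DifferentiableOn ℂ ell {s : ℂ | 1 < s.re} := by
  have h := hg.1.add hz.1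
  exact h

theorem deriv_eq (hg : S_GAM) (hz : S_ZET) (s : ℂ) (hs : 1 < s.re) :
    deriv ell s = 2 * (s - 1 / 2) * (deriv FF ((s - 1 / 2) ^ 2) / FF ((s - 1 / 2) ^ 2)) := by
  have hn : {s : ℂ | 1 < s.re} ∈ 𝓝 s := isOpenU.mem_nhds hs
  have hd : HasDerivAt ell (deriv ell s) s := ((ell_diff hg hz).differentiableAt hn).hasDerivAt
  have h1 : HasDerivAt (fun s => 4 * cexp (ell s)) (4 * (cexp (ell s) * deriv ell s)) s :=
    (hd.cexp).const_mul 4
  have h2 : HasDerivAt (fun s : ℂ => (s - 1 / 2) ^ 2) (2 * (s - 1 / 2)) s := by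
    have h := ((hasDerivAt_id s).sub_const (1 / 2 : ℂ)).pow 2
    refine (h.congr_deriv ?_).congr_of_eventuallyEq (Filter.Eventually.of_forall fun x => ?_)
    · simp
    · rfl
  have h3 : HasDerivAt (fun s : ℂ => FF ((s - 1 / 2) ^ 2))
      (deriv FF ((s - 1 / 2) ^ 2) * (2 * (s - 1 / 2))) s :=
    HasDerivAt.comp s (goodF.1 _).hasDerivAt h2
  have h4 : (fun s : ℂ => FF ((s - 1 / 2) ^ 2)) =ᶠ[𝓝 s] fun s => 4 * cexp (ell s) := by
    filter_upwards [hn] with x hx
    exact FF_eq hg hz x hx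
  have h5 := (h3.congr_of_eventuallyEq h4.symm).unique h1
  have h6 := FF_eq hg hz s hs
  have hne : FF ((s - 1 / 2) ^ 2) ≠ 0 := by
    rw [h6]
    exact mul_ne_zero (by norm_num) (Complex.exp_ne_zero _)
  rw [← mul_div_assoc, eq_div_iff hne]
  rw [h6]
  linear_combination -h5

theorem nonneg (hg : S_GAM) (hz : S_ZET) (s : ℂ) (hs : 1 < s.re) : 0 ≤ (deriv ell s).re := by
  rw [deriv_eq hg hz s hs]
  apply FF_nonneg
  rw [Complex.sub_re]
  norm_num
  linarith

theorem G2 : Gammaℝ 2 = (((Real.pi)⁻¹ : ℝ) : ℂ) := by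
  rw [Complex.Gammaℝ_def]
  have h1 : (-2 / 2 : ℂ) = -1 := by norm_num
  have h2 : (2 / 2 : ℂ) = 1 := by norm_num
  rw [h1, h2, Complex.Gamma_one, mul_one, Complex.cpow_neg_one]
  push_cast
  rfl

theorem G4 : Gammaℝ 4 = (((Real.pi ^ 2)⁻¹ : ℝ) : ℂ) := by
  rw [Complex.Gammaℝ_def]
  have h1 : (-4 / 2 : ℂ) = -(2 : ℕ) := by norm_num
  have h2 : (4 / 2 : ℂ) = (1 : ℕ) + 1 := by norm_num
  rw [h1, h2, Complex.Gamma_nat_eq_factorial, Complex.cpow_neg, Complex.cpow_natCast]
  push_cast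
  simp

theorem main (hg : S_GAM) (hz : S_ZET) : S_MON := by
  intro s hs
  by_contra hcon
  have h0 : (deriv ell s).re = 0 := le_antisymm (not_lt.1 hcon) (nonneg hg hz s hs)
  have hdiff := ell_diff hg hz
  have han : AnalyticOnNhd ℂ (deriv ell) {s : ℂ | 1 < s.re} :=
    (hdiff.deriv isOpenU).analyticOnNhd isOpenU
  have hconv : Convex ℝ {s : ℂ | 1 < s.re} := convex_halfSpace_re_gt 1
  rcases han.is_constant_or_isOpen hconv.isPreconnected with ⟨w, hw⟩ | hopen
  · have hw0 : w.re = 0 := by rw [← hw s hs]; exact h0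
    have m2 : (2 : ℂ) ∈ {s : ℂ | 1 < s.re} := by
      show 1 < (2 : ℂ).re
      norm_num
    have m4 : (4 : ℂ) ∈ {s : ℂ | 1 < s.re} := by
      show 1 < (4 : ℂ).re
      norm_num
    have hlin : ‖(ell 4 - w * 4) - (ell 2 - w * 2)‖ ≤ 0 * ‖(4 : ℂ) - 2‖ := by
      refine hconv.norm_image_sub_le_of_norm_hasDerivWithin_le (f := fun x => ell x - w * x)
        (f' := fun _ => 0) (C := 0) ?_ (by simp) m2 m4
      intro x hx
      have hd : HasDerivAt ell (deriv ell x) x :=
        (hdiff.differentiableAt (isOpenU.mem_nhds hx)).hasDerivAt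
      have hd2 : HasDerivAt (fun x => ell x - w * x) (deriv ell x - w * 1) x :=
        hd.sub ((hasDerivAt_id x).const_mul w)
      rw [hw x hx] at hd2
      simpa using hd2.hasDerivWithinAt
    have hlin2 : ell 4 = ell 2 + 2 * w := by
      have : (ell 4 - w * 4) - (ell 2 - w * 2) = 0 := by
        rw [← norm_le_zero_iff]
        simpa using hlin
      linear_combination this
    have hn : ‖cexp (ell 4)‖ = ‖cexp (ell 2)‖ := by
      rw [Complex.norm_exp, Complex.norm_exp, hlin2]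
      congr 1
      simp [hw0]
    have e2 : cexp (ell 2) = ((Real.pi / 3 : ℝ) : ℂ) := by
      unfold ell
      rw [Complex.exp_add, hg.2.1 2 m2, hz.2.1 2 m2, G2, riemannZeta_two]
      push_cast
      have : (Real.pi : ℂ) ≠ 0 := by exact_mod_cast Real.pi_ne_zero
      field_simp
      norm_num
    have e4 : cexp (ell 4) = ((2 * Real.pi ^ 2 / 15 : ℝ) : ℂ) := by
      unfold ell
      rw [Complex.exp_add, hg.2.1 4 m4, hz.2.1 4 m4, G4, riemannZeta_four]
      push_cast
      have : (Real.pi : ℂ) ≠ 0 := by exact_mod_cast Real.pi_ne_zero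
      field_simp
      norm_num
    rw [e2, e4, Complex.norm_real, Complex.norm_real, Real.norm_eq_abs, Real.norm_eq_abs,
      abs_of_nonneg (by positivity), abs_of_nonneg (by positivity)] at hn
    have h3 := Real.pi_gt_three
    nlinarith
  · have ho := hopen _ (Set.Subset.refl _) isOpenU
    have hmem : deriv ell s ∈ deriv ell '' {s : ℂ | 1 < s.re} := ⟨s, hs, rfl⟩
    obtain ⟨ε, hε, hball⟩ := Metric.isOpen_iff.1 ho _ hmem
    have hin : deriv ell s - ((ε / 2 : ℝ) : ℂ) ∈ ball (deriv ell s) ε := by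
      rw [mem_ball, dist_eq_norm]
      have : deriv ell s - ((ε / 2 : ℝ) : ℂ) - deriv ell s = -((ε / 2 : ℝ) : ℂ) := by ring
      rw [this, norm_neg, Complex.norm_real, Real.norm_eq_abs, abs_of_pos (by linarith)]
      linarith
    obtain ⟨t, ht, hte⟩ := hball hin
    have h1 := nonneg hg hz t ht
    rw [hte, Complex.sub_re, h0, Complex.ofReal_re] at h1
    linarith

end Pool.Agent.W143.AI.MON
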